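import Mathlib

set_option autoImplicit false

namespace Pool.Agent.MP_d19b84_nt.LR

open Finset

/-- ideal points of the geometric lattice -/
noncomputable def yy (T : ℝ) (n : ℕ) : ℝ := Real.exp (((n : ℝ) + 1 / 2) / T)

/-- ideal running sums -/
noncomputable def GG (T : ℝ) (n : ℕ) : ℝ := yy T n / (Real.exp (1 / T) - 1)

/-- rounded running sums -/
noncomputable def FF (T : ℝ) (n : ℕ) : ℕ := ⌊GG T n⌋₊

/-- the integer points -/
noncomputable def bb (T : ℝ) (n : ℕ) : ℕ := FF T (n + 1) - FF T n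

lemma yy_pos (T : ℝ) (n : ℕ) : 0 < yy T n := Real.exp_pos _

lemma yy_succ (T : ℝ) (n : ℕ) : yy T (n + 1) = yy T n * Real.exp (1 / T) := by
  unfold yy
  rw [← Real.exp_add]
  congr 1
  push_cast
  ring

lemma lam_pos {T : ℝ} (hT : 0 < T) : 0 < Real.exp (1 / T) - 1 := by
  have h := Real.add_one_lt_exp (x := 1 / T) (by positivity)
  have : 0 < 1 / T := by positivity
  linarith

lemma GG_succ {T : ℝ} (hT : 0 < T) (n : ℕ) : GG T (n + 1) = GG T n + yy T n := by
  have h := lam_pos hT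
  unfold GG
  rw [yy_succ]
  field_simp
  ring

lemma GG_nonneg {T : ℝ} (hT : 0 < T) (n : ℕ) : 0 ≤ GG T n :=
  div_nonneg (yy_pos T n).le (lam_pos hT).le

lemma FF_le_succ {T : ℝ} (hT : 0 < T) (n : ℕ) : FF T n ≤ FF T (n + 1) := by
  unfold FF
  apply Nat.floor_mono
  rw [GG_succ hT]
  linarith [yy_pos T n]

lemma bb_cast {T : ℝ} (hT : 0 < T) (n : ℕ) : (bb T n : ℝ) = FF T (n + 1) - FF T n := by
  unfold bb
  rw [Nat.cast_sub (FF_le_succ hT n)]

lemma FF_le {T : ℝ} (hT : 0 < T) (n : ℕ) : (FF T n : ℝ) ≤ GG T n :=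
  Nat.floor_le (GG_nonneg hT n)

lemma FF_gt (T : ℝ) (n : ℕ) : GG T n < (FF T n : ℝ) + 1 := Nat.lt_floor_add_one _

lemma bb_lt {T : ℝ} (hT : 0 < T) (n : ℕ) : (bb T n : ℝ) < yy T n + 1 := by
  have h1 := FF_le hT (n + 1)
  have h2 := FF_gt T n
  rw [bb_cast hT]
  rw [GG_succ hT] at h1
  linarith

lemma bb_gt {T : ℝ} (hT : 0 < T) (n : ℕ) : yy T n - 1 < (bb T n : ℝ) := by
  have h1 := FF_le hT n
  have h2 := FF_gt T (n + 1)
  rw [bb_cast hT]
  rw [GG_succ hT] at h2
  linarith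

lemma sum_bb {T : ℝ} (hT : 0 < T) (n L : ℕ) :
    ∑ i ∈ range L, (bb T (n + i) : ℝ) = FF T (n + L) - FF T n := by
  induction L with
  | zero => simp
  | succ L ih => rw [sum_range_succ, ih, bb_cast hT, ← add_assoc]; ring

lemma sum_yy {T : ℝ} (hT : 0 < T) (n L : ℕ) :
    ∑ i ∈ range L, yy T (n + i) = GG T (n + L) - GG T n := by
  induction L with
  | zero => simp
  | succ L ih => rw [sum_range_succ, ih, ← add_assoc, GG_succ hT]; ring

lemma bb_lt_succ {T : ℝ} (hT : 1 ≤ T) (n : ℕ) (h : 3 * T ≤ bb T n) : bb T n < bb T (n + 1) := by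
  have hT0 : 0 < T := by linarith
  have h1 := bb_lt hT0 n
  have h2 := bb_gt hT0 (n + 1)
  have h3 := Real.add_one_le_exp (1 / T)
  have h4 : 2 * T ≤ yy T n := by linarith
  have h5 : 2 ≤ yy T n * (1 / T) := by
    rw [mul_one_div, le_div_iff₀ hT0]; exact h4
  have h6 : yy T n * (1 / T + 1) ≤ yy T n * Real.exp (1 / T) :=
    mul_le_mul_of_nonneg_left h3 (yy_pos T n).le
  rw [yy_succ] at h2
  have : (bb T n : ℝ) < bb T (n + 1) := by nlinarith
  exact_mod_cast this

lemma bb_lt_of_lt {T : ℝ} (hT : 1 ≤ T) {n n' : ℕ} (h : 3 * T ≤ bb T n) (hn : n < n') :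
    bb T n < bb T n' := by
  induction n', hn using Nat.le_induction with
  | base => exact bb_lt_succ hT n h
  | succ m _ ih =>
    refine ih.trans (bb_lt_succ hT m (h.trans ?_))
    exact_mod_cast ih.le

lemma bb_le_of_le {T : ℝ} (hT : 1 ≤ T) {n n' : ℕ} (h : 3 * T ≤ bb T n) (hn : n ≤ n') :
    bb T n ≤ bb T n' := by
  rcases hn.eq_or_lt with rfl | hn
  · exact le_rfl
  · exact (bb_lt_of_lt hT h hn).le

lemma exp_le_quad {x : ℝ} (hx : |x| ≤ 1) : Real.exp x ≤ 1 + x + x ^ 2 := by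
  have := Real.abs_exp_sub_one_sub_id_le hx
  have h2 := le_abs_self (Real.exp x - 1 - x)
  linarith

lemma bb_gap {T : ℝ} (hT : 64 ≤ T) (n : ℕ) (h : (bb T n : ℝ) ≤ 32 * T) :
    bb T (n + 1) ≤ bb T n + 36 := by
  have hT0 : 0 < T := by linarith
  have h1 := bb_gt hT0 n
  have h2 := bb_lt hT0 (n + 1)
  have hx : 0 < 1 / T := by positivity
  have hx1 : 1 / T ≤ 1 / 64 := one_div_le_one_div_of_le (by norm_num) hT
  have h3 := exp_le_quad (x := 1 / T) (by rw [abs_of_pos hx]; linarith)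
  have h4 : T * (1 / T) = 1 := by field_simp
  have h5 : yy T n * (1 / T) ≤ 33 := by
    have : yy T n * (1 / T) ≤ (32 * T + 1) * (1 / T) :=
      mul_le_mul_of_nonneg_right (by linarith) hx.le
    nlinarith
  have h6 : yy T n * Real.exp (1 / T) ≤ yy T n * (1 + 1 / T + (1 / T) ^ 2) :=
    mul_le_mul_of_nonneg_left h3 (yy_pos T n).le
  have h7 : yy T n * (1 / T) ^ 2 ≤ 1 := by
    have : yy T n * (1 / T) * (1 / T) ≤ 33 * (1 / 64) :=
      mul_le_mul h5 hx1 hx.le (by norm_num)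
    nlinarith
  rw [yy_succ] at h2
  have : (bb T (n + 1) : ℝ) ≤ bb T n + 36 := by nlinarith
  exact_mod_cast this

lemma bb_unbdd {T : ℝ} (hT : 0 < T) (z : ℕ) : ∃ n, z ≤ bb T n := by
  obtain ⟨n, hn⟩ := exists_nat_ge ((z : ℝ) * T)
  refine ⟨n, ?_⟩
  have h1 := bb_gt hT n
  have h2 := Real.add_one_le_exp (((n : ℝ) + 1 / 2) / T)
  have h3 : (z : ℝ) ≤ ((n : ℝ) + 1 / 2) / T := by
    rw [le_div_iff₀ hT]; linarith
  have : (z : ℝ) < bb T n := by unfold yy at h1; linarith
  exact_mod_cast this.le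

lemma bb_zero {T : ℝ} (hT : 1 ≤ T) : (bb T 0 : ℝ) ≤ 3 := by
  have hT0 : 0 < T := by linarith
  have h1 := bb_lt hT0 0
  have hx : 0 < (1 / 2 : ℝ) / T := by positivity
  have hx1 : (1 / 2 : ℝ) / T ≤ 1 / 2 := div_le_self (by norm_num) hT
  have h3 := exp_le_quad (x := (1 / 2 : ℝ) / T) (by rw [abs_of_pos hx]; linarith)
  unfold yy at h1
  simp only [Nat.cast_zero, zero_add] at h1
  nlinarith

open Classical in
/-- the lattice points in an interval -/
noncomputable def blk (T : ℝ) (u v : ℕ) : Finset ℕ := (Icc u v).filter (fun e => ∃ n, e = bb T n)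

lemma dens {T : ℝ} (hT : 64 ≤ T) (z t : ℕ) (hz : 16 * T ≤ z) (hzt : (z : ℝ) + 36 * t ≤ 32 * T) :
    t ≤ (blk T z (z + 36 * t)).card := by
  classical
  have hT0 : 0 < T := by linarith
  have hT1 : 1 ≤ T := by linarith
  have hex := bb_unbdd hT0 z
  set n0 := Nat.find hex with hn0
  have h0 : z ≤ bb T n0 := Nat.find_spec hex
  have h0' : 3 * T ≤ bb T n0 := by
    have : (z : ℝ) ≤ bb T n0 := by exact_mod_cast h0
    linarith
  have hpos : n0 ≠ 0 := by
    intro h
    rw [h] at h0'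
    have := bb_zero hT1
    linarith
  obtain ⟨n1, hn1⟩ := Nat.exists_eq_succ_of_ne_zero hpos
  have h1 : bb T n1 < z := by
    have := Nat.find_min hex (m := n1) (by omega)
    omega
  have hstep : ∀ i, i ≤ t → bb T (n1 + i) ≤ z + 36 * i := by
    intro i
    induction i with
    | zero => intro _; simp; omega
    | succ i ih =>
      intro hi
      have h2 := ih (by omega)
      have h3 : (bb T (n1 + i) : ℝ) ≤ 32 * T := by
        have h4 : (bb T (n1 + i) : ℝ) ≤ z + 36 * i := by exact_mod_cast h2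
        have h5 : (i : ℝ) ≤ t := by exact_mod_cast (by omega : i ≤ t)
        linarith
      have := bb_gap hT (n1 + i) h3
      rw [← add_assoc]
      omega
  refine (card_range t).symm.le.trans (card_le_card_of_injOn (fun i => bb T (n0 + i)) ?_ ?_)
  · intro i hi
    have hi' : i < t := by simpa using hi
    simp only [blk, coe_filter, mem_Icc, Set.mem_ofPred_eq]
    refine ⟨⟨h0.trans (bb_le_of_le hT1 h0' (by omega)), ?_⟩, _, rfl⟩
    have := hstep (i + 1) (by omega)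
    rw [show n1 + (i + 1) = n0 + i by omega] at this
    omega
  · intro i _ i' _ e
    by_contra hne
    have hb : ∀ i, 3 * T ≤ bb T (n0 + i) := fun i =>
      h0'.trans (by exact_mod_cast bb_le_of_le hT1 h0' (by omega))
    rcases lt_or_gt_of_ne hne with h | h
    · exact absurd e (bb_lt_of_lt hT1 (hb i) (by omega)).ne
    · exact absurd e (bb_lt_of_lt hT1 (hb i') (by omega)).ne'

lemma blk_struct {T : ℝ} (hT : 1 ≤ T) (u v : ℕ) (hu : 3 * T ≤ u) (huv : u ≤ v) :
    ∃ n, ∑ e ∈ blk T u v, e = ∑ i ∈ range (blk T u v).card, bb T (n + i) := by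
  classical
  have hT0 : 0 < T := by linarith
  have hex := bb_unbdd hT0 u
  have hex' := bb_unbdd hT0 (v + 1)
  set n0 := Nat.find hex with hn0
  set n1 := Nat.find hex' with hn1
  have h0 : u ≤ bb T n0 := Nat.find_spec hex
  have h1 : v + 1 ≤ bb T n1 := Nat.find_spec hex'
  have h0' : 3 * T ≤ bb T n0 := hu.trans (by exact_mod_cast h0)
  have h1' : 3 * T ≤ bb T n1 := hu.trans (by exact_mod_cast (by omega : u ≤ bb T n1))
  have hb : ∀ i, 3 * T ≤ bb T (n0 + i) := fun i =>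
    h0'.trans (by exact_mod_cast bb_le_of_le hT h0' (by omega))
  have hinj : Set.InjOn (fun i => bb T (n0 + i)) (range (n1 - n0) : Finset ℕ) := by
    intro i _ i' _ e
    by_contra hne
    rcases lt_or_gt_of_ne hne with h | h
    · exact absurd e (bb_lt_of_lt hT (hb i) (by omega)).ne
    · exact absurd e (bb_lt_of_lt hT (hb i') (by omega)).ne'
  have heq : blk T u v = (range (n1 - n0)).image (fun i => bb T (n0 + i)) := by
    ext e
    simp only [blk, mem_filter, mem_Icc, mem_image, mem_range]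
    constructor
    · rintro ⟨⟨h2, h3⟩, n, rfl⟩
      have h4 : n0 ≤ n := Nat.find_min' hex h2
      have h5 : n < n1 := by
        by_contra h
        have := bb_le_of_le hT h1' (not_lt.1 h)
        omega
      exact ⟨n - n0, by omega, by rw [show n0 + (n - n0) = n by omega]⟩
    · rintro ⟨i, hi, rfl⟩
      refine ⟨⟨h0.trans (bb_le_of_le hT h0' (by omega)), ?_⟩, _, rfl⟩
      have := Nat.find_min hex' (m := n0 + i) (by omega)
      omega
  refine ⟨n0, ?_⟩
  rw [heq, sum_image hinj, card_image_of_injOn hinj, card_range]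

lemma sum_centre (L : ℕ) : ∑ i ∈ range L, ((i : ℝ) + 1 / 2 - L / 2) = 0 := by
  have h : ∀ L : ℕ, ∑ i ∈ range L, ((i : ℝ) + 1 / 2) = (L : ℝ) ^ 2 / 2 := by
    intro L
    induction L with
    | zero => simp
    | succ L ih => rw [sum_range_succ, ih]; push_cast; ring
  rw [sum_sub_distrib, h]
  simp
  ring

lemma exp_sep (a b : ℝ) : Real.exp b * (a - b) ≤ Real.exp a - Real.exp b := by
  have h1 := Real.add_one_le_exp (a - b)
  have h2 : Real.exp a = Real.exp b * Real.exp (a - b) := by rw [← Real.exp_add]; congr 1; ring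
  have h3 := Real.exp_pos b
  nlinarith

lemma chord_ideal {T : ℝ} (hT : 0 < T) (n L : ℕ) (hL : (L : ℝ) ≤ T) :
    L * Real.exp (((n : ℝ) + L / 2) / T) ≤ ∑ i ∈ range L, yy T (n + i) ∧
    ∑ i ∈ range L, yy T (n + i) ≤
      L * Real.exp (((n : ℝ) + L / 2) / T) * (1 + (L : ℝ) ^ 2 / T ^ 2) := by
  set c := Real.exp (((n : ℝ) + L / 2) / T) with hc
  have hc0 : 0 < c := Real.exp_pos _
  have h1 : ∀ i : ℕ, yy T (n + i) = c * Real.exp (((i : ℝ) + 1 / 2 - L / 2) / T) := by
    intro i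
    unfold yy
    rw [hc, ← Real.exp_add]
    congr 1
    push_cast
    ring
  have h2 : ∑ i ∈ range L, ((i : ℝ) + 1 / 2 - L / 2) / T = 0 := by
    rw [← sum_div, sum_centre, zero_div]
  simp only [h1, ← mul_sum]
  constructor
  · rw [mul_comm]
    refine mul_le_mul_of_nonneg_left ?_ hc0.le
    calc (L : ℝ) = ∑ i ∈ range L, (((i : ℝ) + 1 / 2 - L / 2) / T + 1) := by
          rw [sum_add_distrib, h2]; simp
      _ ≤ _ := sum_le_sum (fun i _ => Real.add_one_le_exp _)
  · rw [mul_comm (L : ℝ) c, mul_assoc]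
    refine mul_le_mul_of_nonneg_left ?_ hc0.le
    calc ∑ i ∈ range L, Real.exp (((i : ℝ) + 1 / 2 - L / 2) / T)
        ≤ ∑ i ∈ range L, (1 + ((i : ℝ) + 1 / 2 - L / 2) / T + (L : ℝ) ^ 2 / T ^ 2) := by
          refine sum_le_sum (fun i hi => ?_)
          have hi' : (i : ℝ) + 1 ≤ L := by exact_mod_cast mem_range.1 hi
          have hi0 : (0 : ℝ) ≤ i := Nat.cast_nonneg i
          have h3 : |(i : ℝ) + 1 / 2 - L / 2| ≤ L := by
            rw [abs_le]; constructor <;> linarith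
          have h4 : |((i : ℝ) + 1 / 2 - L / 2) / T| ≤ 1 := by
            rw [abs_div, abs_of_pos hT, div_le_one hT]; linarith
          refine (exp_le_quad h4).trans ?_
          have h5 : ((i : ℝ) + 1 / 2 - L / 2) ^ 2 ≤ (L : ℝ) ^ 2 := by
            rw [← sq_abs]; exact pow_le_pow_left₀ (abs_nonneg _) h3 2
          rw [div_pow]
          gcongr
      _ = L * (1 + (L : ℝ) ^ 2 / T ^ 2) := by
          rw [sum_add_distrib, sum_add_distrib, h2]; simp; ring

lemma phase {T : ℝ} (hT : 1 ≤ T) (k n L n' : ℕ) (hL1 : 1 ≤ L) (hL : (L : ℝ) ≤ T) (z : ℤ)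
    (hz : |2 ^ (k + 1) * T * Real.log L - z| ≤ 1 / 10) (s : ℕ)
    (hs : s = ∑ i ∈ range L, bb T (n + i))
    (hlow : 16 * (2 ^ (k + 1) * T) ≤ s) (hup : ((s : ℝ) + 1) * (L : ℝ) ^ 2 ≤ T ^ 2) :
    s ≠ bb (2 ^ (k + 1) * T) n' := by
  intro e
  have hT0 : 0 < T := by linarith
  set T' := 2 ^ (k + 1) * T with hT'
  have hp : (1 : ℝ) ≤ 2 ^ (k + 1) := one_le_pow₀ (by norm_num)
  have hT'1 : 1 ≤ T' := by rw [hT']; nlinarith
  have hT'0 : 0 < T' := by linarith
  have hL0 : (0 : ℝ) < L := by exact_mod_cast hL1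
  obtain ⟨c1, c2⟩ := chord_ideal hT0 n L hL
  have hsr : (s : ℝ) = FF T (n + L) - FF T n := by
    rw [hs, ← sum_bb hT0]; push_cast; rfl
  rw [sum_yy hT0] at c1 c2
  have f1 := FF_le hT0 (n + L)
  have f2 := FF_gt T (n + L)
  have f3 := FF_le hT0 n
  have f4 := FF_gt T n
  set A := (L : ℝ) * Real.exp (((n : ℝ) + L / 2) / T) with hA
  have hA0 : 0 < A := mul_pos hL0 (Real.exp_pos _)
  have a1 : A < s + 1 := by linarith
  have a2 : A * ((L : ℝ) ^ 2 / T ^ 2) ≤ 1 := by
    rw [← mul_div_assoc, div_le_one (by positivity)]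
    exact (mul_le_mul_of_nonneg_right a1.le (by positivity)).trans hup
  have a3 : (s : ℝ) - 2 < A := by nlinarith
  have b1 := bb_lt hT'0 n'
  have b2 := bb_gt hT'0 n'
  rw [← e] at b1 b2
  have hAe : A = Real.exp ((2 ^ (k + 1) * ((n : ℝ) + L / 2) + T' * Real.log L) / T') := by
    rw [add_div, Real.exp_add, mul_div_cancel_left₀ _ hT'0.ne', Real.exp_log hL0, hA, mul_comm]
    congr 2
    rw [hT']
    field_simp
  set s1 := 2 ^ (k + 1) * ((n : ℝ) + L / 2) + T' * Real.log L with hs1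
  have hint : ∃ w : ℤ, |s1 - w| ≤ 1 / 10 := by
    refine ⟨2 ^ k * (2 * n + L) + z, ?_⟩
    convert hz using 2
    rw [hs1]
    push_cast
    ring
  obtain ⟨w, hw⟩ := hint
  rw [abs_le] at hw
  have key : ∀ a b : ℝ, b + 2 / 5 ≤ a → (s : ℝ) - 2 < Real.exp (b / T') →
      3 < Real.exp (a / T') - Real.exp (b / T') := by
    intro a b hab hb
    have h2 := exp_sep (a / T') (b / T')
    have h3 : (2 / 5) / T' ≤ a / T' - b / T' := by
      rw [← sub_div]; gcongr; linarith
    have h4 : (14 * T') * ((2 / 5) / T') ≤ Real.exp (b / T') * (a / T' - b / T') :=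
      mul_le_mul (by linarith) h3 (by positivity) (Real.exp_pos _).le
    have h5 : (14 * T') * ((2 / 5) / T') = 28 / 5 := by field_simp; norm_num
    linarith
  unfold yy at b1 b2
  rcases le_or_gt w (n' : ℤ) with h | h
  · have h' : (w : ℝ) ≤ n' := by exact_mod_cast h
    have := key ((n' : ℝ) + 1 / 2) s1 (by linarith) (by rw [← hAe]; exact a3)
    rw [← hAe] at this
    linarith
  · have h' : (n' : ℝ) + 1 ≤ w := by exact_mod_cast h
    have := key s1 ((n' : ℝ) + 1 / 2) (by linarith) (by linarith)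
    rw [← hAe] at this
    linarith

end Pool.Agent.MP_d19b84_nt.LR
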