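import Mathlib
import Pool.Agent.MP_d19b84_nt.LR.Geo

set_option autoImplicit false

namespace Pool.Agent.MP_d19b84_nt.LR

open Finset

/-- far from the multiples of X -/
def Good (X w e : ℕ) : Prop :=
  (e / X) * X + w * (e / X) ^ 2 ≤ e ∧ e + w * (e / X + 1) ^ 2 ≤ (e / X + 1) * X

open Classical in
/-- one stage -/
noncomputable def DD (T w J : ℕ) : Finset ℕ :=
  insert (16 * T) ((range (2 ^ J * (16 * T))).filter (fun e => Good (16 * T) w e ∧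
    ∃ j, 2 ^ j * (16 * T) ≤ e ∧ e < 2 ^ (j + 1) * (16 * T) ∧ ∃ n, e = bb (2 ^ j * (T : ℝ)) n))

lemma mem_DD {T w J e : ℕ} : e ∈ DD T w J ↔ e = 16 * T ∨ (e < 2 ^ J * (16 * T) ∧
    Good (16 * T) w e ∧
    ∃ j, 2 ^ j * (16 * T) ≤ e ∧ e < 2 ^ (j + 1) * (16 * T) ∧ ∃ n, e = bb (2 ^ j * (T : ℝ)) n) := by
  classical
  simp only [DD, mem_insert, mem_filter, mem_range]

lemma DD_ge {T w J e : ℕ} (h : e ∈ DD T w J) : 16 * T ≤ e := by
  rcases mem_DD.1 h with h | ⟨_, _, j, h, _⟩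
  · exact h.ge
  · exact (Nat.le_mul_of_pos_left _ (by positivity)).trans h

lemma DD_lt {T w J e : ℕ} (hT : 0 < T) (hJ : 1 ≤ J) (h : e ∈ DD T w J) : e < 2 ^ J * (16 * T) := by
  rcases mem_DD.1 h with h | ⟨h, _⟩
  · have : 2 ^ 1 ≤ 2 ^ J := Nat.pow_le_pow_right (by norm_num) hJ
    nlinarith
  · exact h

lemma div_eq_of {X m e : ℕ} (h1 : m * X ≤ e) (h2 : e < (m + 1) * X) : e / X = m :=
  Nat.div_eq_of_lt_le h1 h2

lemma seg_eq {T w J m u v : ℕ} (hw : 0 < w) (hm : 1 ≤ m) (hmR : m < 2 ^ J)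
    (hu : m * (16 * T) + w * m ^ 2 ≤ u) (hv : v + w * (m + 1) ^ 2 ≤ (m + 1) * (16 * T)) :
    (DD T w J).filter (fun e => u ≤ e ∧ e ≤ v) = blk (2 ^ (Nat.log 2 m) * (T : ℝ)) u v := by
  classical
  have p1 : 0 < w * m ^ 2 := by positivity
  have p2 : 0 < w * (m + 1) ^ 2 := by positivity
  have l1 : 2 ^ Nat.log 2 m ≤ m := Nat.pow_log_le_self 2 (by omega)
  have l2 : m < 2 ^ (Nat.log 2 m + 1) := Nat.lt_pow_succ_log_self (by norm_num) m
  have hX : 16 * T ≤ m * (16 * T) := Nat.le_mul_of_pos_left _ hm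
  ext e
  simp only [mem_filter, blk, mem_Icc, mem_DD]
  constructor
  · rintro ⟨h | ⟨_, _, j, h1, h2, h3⟩, h4, h5⟩
    · omega
    · refine ⟨⟨h4, h5⟩, ?_⟩
      have hj : Nat.log 2 m = j := by
        apply Nat.log_eq_of_pow_le_of_lt_pow
        · have : 2 ^ j * (16 * T) < (m + 1) * (16 * T) := by omega
          have := Nat.lt_of_mul_lt_mul_right this
          omega
        · have : m * (16 * T) < 2 ^ (j + 1) * (16 * T) := by omega
          exact Nat.lt_of_mul_lt_mul_right this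
      rw [hj]
      exact h3
  · rintro ⟨⟨h4, h5⟩, h3⟩
    have hd : e / (16 * T) = m := div_eq_of (by omega) (by omega)
    have a1 : (m + 1) * (16 * T) ≤ 2 ^ J * (16 * T) := Nat.mul_le_mul_right _ hmR
    have a2 : 2 ^ Nat.log 2 m * (16 * T) ≤ m * (16 * T) := Nat.mul_le_mul_right _ l1
    have a3 : (m + 1) * (16 * T) ≤ 2 ^ (Nat.log 2 m + 1) * (16 * T) := Nat.mul_le_mul_right _ l2
    refine ⟨Or.inr ⟨by omega, ?_, Nat.log 2 m, by omega, by omega, h3⟩, h4, h5⟩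
    unfold Good
    rw [hd]
    omega

lemma seg_dens {T w J m z t : ℕ} (hT : 64 ≤ T) (hw : 0 < w) (hm : 1 ≤ m) (hmR : m < 2 ^ J)
    (hu : m * (16 * T) + w * m ^ 2 ≤ z)
    (hv : z + 36 * t + w * (m + 1) ^ 2 ≤ (m + 1) * (16 * T)) :
    t ≤ ((DD T w J).filter (fun e => z ≤ e ∧ e ≤ z + 36 * t)).card := by
  rw [seg_eq hw hm hmR hu hv]
  have l1 : 2 ^ Nat.log 2 m ≤ m := Nat.pow_log_le_self 2 (by omega)
  have l2 : m < 2 ^ (Nat.log 2 m + 1) := Nat.lt_pow_succ_log_self (by norm_num) m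
  have a2 : 2 ^ Nat.log 2 m * (16 * T) ≤ m * (16 * T) := Nat.mul_le_mul_right _ l1
  have a3 : (m + 1) * (16 * T) ≤ 2 ^ (Nat.log 2 m + 1) * (16 * T) := Nat.mul_le_mul_right _ l2
  have hp : (1 : ℝ) ≤ 2 ^ Nat.log 2 m := one_le_pow₀ (by norm_num)
  have hT' : (64 : ℝ) ≤ T := by exact_mod_cast hT
  apply dens
  · nlinarith
  · have : 2 ^ Nat.log 2 m * (16 * T) ≤ z := by omega
    have : ((2 ^ Nat.log 2 m * (16 * T) : ℕ) : ℝ) ≤ z := by exact_mod_cast this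
    push_cast at this
    linarith
  · have : z + 36 * t ≤ 2 ^ (Nat.log 2 m + 1) * (16 * T) := by omega
    have : ((z + 36 * t : ℕ) : ℝ) ≤ ((2 ^ (Nat.log 2 m + 1) * (16 * T) : ℕ) : ℝ) := by
      exact_mod_cast this
    push_cast at this
    rw [pow_succ] at this
    linarith

lemma not_good {X w M s : ℕ} (hM : 1 ≤ M) (hX : w * M ^ 2 ≤ X) (h1 : M * X < s + w * M ^ 2)
    (h2 : s < M * X + w * M ^ 2) : ¬ Good X w s := by
  obtain ⟨m, rfl⟩ : ∃ m, M = m + 1 := ⟨M - 1, by omega⟩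
  unfold Good
  rcases lt_or_ge s ((m + 1) * X) with h | h
  · have : s / X = m := div_eq_of (by nlinarith) h
    rw [this]
    omega
  · have : s / X = m + 1 := div_eq_of h (by nlinarith)
    rw [this]
    omega

/-- blocks inside one segment -/
lemma inside {T w J m u v : ℕ} (hw : 0 < w) (hT : 32 * (2 ^ J) ^ 3 ≤ T)
    (hD : ∀ L : ℕ, 1 ≤ L → L ≤ 2 ^ J → ∃ z : ℤ, |(T : ℝ) * Real.log L - z| ≤ 1 / (10 * 2 ^ J))
    (hm : 1 ≤ m) (hmR : m < 2 ^ J)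
    (hu : m * (16 * T) + w * m ^ 2 ≤ u) (hv : v + w * (m + 1) ^ 2 ≤ (m + 1) * (16 * T))
    (huv : u ≤ v) (h2 : 2 ≤ ((DD T w J).filter (fun e => u ≤ e ∧ e ≤ v)).card) :
    ∑ e ∈ (DD T w J).filter (fun e => u ≤ e ∧ e ≤ v), e ∉ DD T w J := by
  intro hs
  have hR : 1 ≤ 2 ^ J := Nat.one_le_two_pow
  have hR3 : 2 ^ J ≤ (2 ^ J) ^ 3 := Nat.le_self_pow (by norm_num) _
  have hT0 : 0 < T := by omega
  set B := (DD T w J).filter (fun e => u ≤ e ∧ e ≤ v) with hB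
  set L := B.card with hL
  set s := ∑ e ∈ B, e with hsdef
  have hLs : L * u ≤ s := by
    have := card_nsmul_le_sum B (fun e => e) u (fun e he => (mem_filter.1 he).2.1)
    simpa using this
  have hX : 16 * T ≤ m * (16 * T) := Nat.le_mul_of_pos_left _ hm
  have h2u : 2 * u ≤ L * u := Nat.mul_le_mul_right _ h2
  have l1 : 2 ^ Nat.log 2 m ≤ m := Nat.pow_log_le_self 2 (by omega)
  have a2 : 2 ^ Nat.log 2 m * (16 * T) ≤ m * (16 * T) := Nat.mul_le_mul_right _ l1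
  rcases mem_DD.1 hs with h | ⟨h3, _, j', h4, h5, n', h6⟩
  · omega
  have hLR : L < 2 ^ J := by
    have : L * (16 * T) ≤ L * u := Nat.mul_le_mul_left _ (by omega)
    have : L * (16 * T) < 2 ^ J * (16 * T) := by omega
    exact Nat.lt_of_mul_lt_mul_right this
  set j := Nat.log 2 m with hj
  have hjj : j < j' := by
    have : 2 ^ (j + 1) * (16 * T) < 2 ^ (j' + 1) * (16 * T) := by
      rw [pow_succ 2 j]; nlinarith
    have := Nat.lt_of_mul_lt_mul_right this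
    have := (Nat.pow_lt_pow_iff_right (by norm_num)).1 this
    omega
  have hj'J : 2 ^ j' ≤ 2 ^ J := by
    have : 2 ^ j' * (16 * T) < 2 ^ J * (16 * T) := by omega
    exact (Nat.lt_of_mul_lt_mul_right this).le
  obtain ⟨k, hk⟩ : ∃ k, j' = j + (k + 1) := ⟨j' - j - 1, by omega⟩
  have hp : (1 : ℝ) ≤ 2 ^ j := one_le_pow₀ (by norm_num)
  have hTr : (1 : ℝ) ≤ T := by exact_mod_cast hT0
  have hT1 : (1 : ℝ) ≤ 2 ^ j * (T : ℝ) := by nlinarith
  have hTT : (T : ℝ) ≤ 2 ^ j * (T : ℝ) := by nlinarith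
  have hseg := seg_eq (T := T) hw hm hmR hu hv
  rw [← hB, ← hj] at hseg
  have hu3 : 3 * (2 ^ j * (T : ℝ)) ≤ u := by
    have : 2 ^ j * (16 * T) ≤ u := by omega
    have : ((2 ^ j * (16 * T) : ℕ) : ℝ) ≤ u := by exact_mod_cast this
    push_cast at this
    linarith
  obtain ⟨n, hn⟩ := blk_struct hT1 u v hu3 huv
  rw [← hseg, ← hL, ← hsdef] at hn
  obtain ⟨z, hz⟩ := hD L (by omega) hLR.le
  have hpow : (2 : ℝ) ^ (k + 1) * (2 ^ j * (T : ℝ)) = 2 ^ j' * T := by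
    rw [hk, pow_add 2 j]; ring
  have hLr : (L : ℝ) ≤ 2 ^ J := by exact_mod_cast hLR.le
  have hTr2 : 32 * ((2 : ℝ) ^ J) ^ 3 ≤ T := by exact_mod_cast hT
  have hRr : (1 : ℝ) ≤ 2 ^ J := one_le_pow₀ (by norm_num)
  refine phase hT1 k n L n' (by omega) ?_ (2 ^ j' * z) ?_ s hn ?_ ?_ (by rw [hpow]; exact h6)
  · have : (L : ℝ) ≤ T := by exact_mod_cast (by omega : L ≤ T)
    linarith
  · rw [hpow]
    push_cast
    rw [mul_assoc, ← mul_sub, abs_mul, abs_of_pos (by positivity : (0 : ℝ) < 2 ^ j')]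
    have h7 : (2 : ℝ) ^ j' ≤ 2 ^ J := by exact_mod_cast hj'J
    calc (2 : ℝ) ^ j' * |(T : ℝ) * Real.log L - z| ≤ 2 ^ J * (1 / (10 * 2 ^ J)) :=
          mul_le_mul h7 hz (abs_nonneg _) (by positivity)
      _ = 1 / 10 := by field_simp
  · rw [hpow]
    have : ((2 ^ j' * (16 * T) : ℕ) : ℝ) ≤ s := by exact_mod_cast h4
    push_cast at this
    linarith
  · have h7 : ((s + 1 : ℕ) : ℝ) ≤ ((2 ^ J * (16 * T) : ℕ) : ℝ) := by exact_mod_cast h3
    push_cast at h7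
    have h8 : (L : ℝ) ^ 2 ≤ ((2 : ℝ) ^ J) ^ 2 := by gcongr
    calc ((s : ℝ) + 1) * (L : ℝ) ^ 2 ≤ (2 ^ J * (16 * T)) * ((2 : ℝ) ^ J) ^ 2 :=
          mul_le_mul h7 h8 (by positivity) (by positivity)
      _ = (16 * ((2 : ℝ) ^ J) ^ 3) * T := by ring
      _ ≤ T * T := by gcongr; nlinarith [pow_pos (show (0 : ℝ) < 2 ^ J by positivity) 3]
      _ ≤ (2 ^ j * (T : ℝ)) ^ 2 := by rw [sq]; gcongr

end Pool.Agent.MP_d19b84_nt.LR
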