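import Mathlib
import Pool.Agent.MP_d19b84_nt.LR.Stage

set_option autoImplicit false

namespace Pool.Agent.MP_d19b84_nt.LR

open Finset

lemma near_sum (B : Finset ℕ) (c d : ℕ) (h : ∀ e ∈ B, c ≤ e + d ∧ e ≤ c + d) :
    B.card * c ≤ ∑ e ∈ B, e + B.card * d ∧ ∑ e ∈ B, e ≤ B.card * c + B.card * d := by
  constructor
  · have := card_nsmul_le_sum B (fun e => e + d) c (fun e he => (h e he).1)
    rw [sum_add_distrib] at this
    simpa using this
  · have := sum_le_card_nsmul B (fun e => e) (c + d) (fun e he => (h e he).2)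
    simpa [mul_add] using this

lemma err_lt {S w m L : ℕ} (hw : S + 109 ≤ w) (hm1 : 1 ≤ m) (hL2 : 2 ≤ L) :
    L * (w * m ^ 2 + 36 * (L + 1)) + S < w * (L * m) ^ 2 := by
  obtain ⟨l, hl⟩ : ∃ l, L = l + 2 := ⟨L - 2, by omega⟩
  have b1 : w * (L * (l + 1)) ≤ w * m ^ 2 * (L * (l + 1)) := by
    apply Nat.mul_le_mul_right
    exact Nat.le_mul_of_pos_right _ (by positivity)
  have b2 : (S + 109) * (L * (l + 1)) ≤ w * (L * (l + 1)) := Nat.mul_le_mul_right _ hw
  have b3 : w * (L * m) ^ 2 = L * (w * m ^ 2) + w * m ^ 2 * (L * (l + 1)) := by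
    rw [hl]; ring
  have b4 : S * 1 ≤ S * (L * (l + 1)) := Nat.mul_le_mul_left _ (by rw [hl]; nlinarith)
  have b5 : L * (36 * (L + 1)) < 109 * (L * (l + 1)) := by rw [hl]; nlinarith
  rw [add_mul] at b2
  rw [b3, mul_add]
  omega

lemma two_sq_le {R : ℕ} (hR : 2 ≤ R) : 2 * R ^ 2 ≤ R ^ 3 := by nlinarith

lemma good_seg {X w e : ℕ} (h : Good X w e) :
    (e / X) * X + w * (e / X) ^ 2 ≤ e ∧ e + w * (e / X + 1) ^ 2 ≤ (e / X + 1) * X := h

lemma robust {T w J S : ℕ} (hJ : 1 ≤ J) (hw : S + 109 ≤ w) (hT : 32 * w * (2 ^ J) ^ 3 ≤ T)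
    (hD : ∀ L : ℕ, 1 ≤ L → L ≤ 2 ^ J → ∃ z : ℤ, |(T : ℝ) * Real.log L - z| ≤ 1 / (10 * 2 ^ J))
    (u v t : ℕ) (ht : t ≤ S) (htu : t = 0 ∨ u = 0)
    (hs : ∑ e ∈ (DD T w J).filter (fun e => u ≤ e ∧ e ≤ v), e + t ∈ DD T w J) :
    ∑ e ∈ (DD T w J).filter (fun e => u ≤ e ∧ e ≤ v), e + t ≤ v := by
  set R := 2 ^ J with hRdef
  have hR : 2 ≤ R := by
    have : 2 ^ 1 ≤ 2 ^ J := Nat.pow_le_pow_right (by norm_num) hJ
    simpa using this
  have hw0 : 0 < w := by omega
  have hR2 : R ≤ R ^ 2 := Nat.le_self_pow (by norm_num) _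
  have hR3 : 2 * R ^ 2 ≤ R ^ 3 := two_sq_le hR
  have hwR : w * R ^ 3 * 32 ≤ T := by linarith
  have hw1 : 109 * R ^ 3 ≤ w * R ^ 3 := Nat.mul_le_mul_right _ (by omega)
  have hw2 : w ≤ w * R ^ 3 := Nat.le_mul_of_pos_right _ (by positivity)
  have hw3 : w * (2 * R ^ 2) ≤ w * R ^ 3 := Nat.mul_le_mul_left _ hR3
  have hT0 : 0 < T := by omega
  have hT64 : 64 ≤ T := by omega
  set X := 16 * T with hX
  set B := (DD T w J).filter (fun e => u ≤ e ∧ e ≤ v) with hB
  have hge := DD_ge hs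
  have hlt := DD_lt hT0 hJ hs
  rw [← hX] at hge
  rw [← hX, ← hRdef] at hlt
  rcases B.eq_empty_or_nonempty with hB0 | hB0
  · rw [hB0] at hge; simp at hge; omega
  set u' := B.min' hB0 with hu'
  set v' := B.max' hB0 with hv'
  have hu'B : u' ∈ B := min'_mem _ _
  have hv'B : v' ∈ B := max'_mem _ _
  have hu'D := (mem_filter.1 hu'B).1
  have hv'D := (mem_filter.1 hv'B).1
  have huu := (mem_filter.1 hu'B).2.1
  have hvv := (mem_filter.1 hv'B).2.2
  have huv : u' ≤ v' := min'_le _ _ hv'B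
  have hBeq : B = (DD T w J).filter (fun e => u' ≤ e ∧ e ≤ v') := by
    ext e
    constructor
    · intro he
      exact mem_filter.2 ⟨(mem_filter.1 he).1, min'_le _ _ he, le_max' _ _ he⟩
    · intro he
      obtain ⟨h1, h2, h3⟩ := mem_filter.1 he
      exact mem_filter.2 ⟨h1, by omega, by omega⟩
  set L := B.card with hL
  set s := ∑ e ∈ B, e with hsdef
  have hLX : L * X ≤ s := by
    have := card_nsmul_le_sum B (fun e => e) X (fun e he => DD_ge (mem_filter.1 he).1)
    simpa using this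
  have hX0 : 0 < X := by omega
  have hLR : L < R := by
    have : L * X < R * X := by omega
    exact Nat.lt_of_mul_lt_mul_right this
  have hu'X : X ≤ u' := DD_ge hu'D
  by_cases h1 : u' = v'
  · have hsing : B = {v'} := by
      rw [eq_singleton_iff_unique_mem]
      refine ⟨hv'B, fun e he => ?_⟩
      have a1 := min'_le _ _ he
      have a2 := le_max' _ _ he
      omega
    have hsv : s = v' := by rw [hsdef, hsing, sum_singleton]
    rcases Nat.eq_zero_or_pos t with ht0 | ht0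
    · omega
    · have hu0 : u = 0 := by omega
      have hXB : X ∈ B := mem_filter.2 ⟨mem_DD.2 (Or.inl rfl), by omega, by omega⟩
      rw [hsing, mem_singleton] at hXB
      exfalso
      rcases mem_DD.1 hs with h | ⟨_, h, _⟩
      · omega
      · exact not_good (M := 1) le_rfl (by omega) (by omega) (by omega) h
  exfalso
  have hlt' : u' < v' := lt_of_le_of_ne huv h1
  have hL2 : 2 ≤ L := by
    have : ({u', v'} : Finset ℕ) ⊆ B := by
      intro e he
      rcases mem_insert.1 he with rfl | he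
      · exact hu'B
      · rw [mem_singleton.1 he]; exact hv'B
    have := card_le_card this
    rwa [card_pair h1] at this
  rcases mem_DD.1 hv'D with h | ⟨hvR, hg, -⟩
  · omega
  rw [← hX] at hg hvR
  rw [← hRdef] at hvR
  obtain ⟨g1, g2⟩ := good_seg hg
  set m := v' / X with hm
  have hm1 : 1 ≤ m := by
    rw [hm, Nat.le_div_iff_mul_le hX0]; omega
  have hmR : m < R := by
    rw [hm, Nat.div_lt_iff_lt_mul hX0]; exact hvR
  have hwm : w * (m + 1) ^ 2 ≤ w * R ^ 2 := Nat.mul_le_mul_left _ (Nat.pow_le_pow_left hmR 2)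
  have hwm' : w * m ^ 2 ≤ w * R ^ 2 := Nat.mul_le_mul_left _ (Nat.pow_le_pow_left hmR.le 2)
  have hwm0 : 0 < w * m ^ 2 := by positivity
  have hmX : X ≤ m * X := Nat.le_mul_of_pos_left _ hm1
  have hm1X : (m + 1) * X = m * X + X := by ring
  have hw4 : w * (2 * R ^ 2) = 2 * (w * R ^ 2) := by ring
  by_cases hin : m * X + w * m ^ 2 ≤ u'
  · have ht0 : t = 0 := by
      rcases htu with h | h
      · exact h
      · have hXB : X ∈ B := mem_filter.2 ⟨mem_DD.2 (Or.inl rfl), by omega, by omega⟩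
        have := min'_le _ _ hXB
        omega
    rw [ht0, add_zero, hsdef, hBeq] at hs
    refine inside hw0 ?_ hD hm1 hmR hin g2 huv ?_ hs
    · rw [← hRdef]; omega
    · rw [← hBeq]; exact hL2
  have hhead : v' ≤ m * X + (w * m ^ 2 + 36 * (L + 1)) := by
    by_contra hc
    have a1 := seg_dens (T := T) (J := J) (z := m * X + w * m ^ 2) (t := L + 1) hT64 hw0 hm1 hmR
      le_rfl (by rw [← hX]; omega)
    have a2 : (DD T w J).filter (fun e => m * X + w * m ^ 2 ≤ e ∧
        e ≤ m * X + w * m ^ 2 + 36 * (L + 1)) ⊆ B := by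
      intro e he
      obtain ⟨b1, b2, b3⟩ := mem_filter.1 he
      exact mem_filter.2 ⟨b1, by omega, by omega⟩
    have := card_le_card a2
    omega
  have htail : m * X ≤ u' + (w * m ^ 2 + 36 * (L + 1)) := by
    by_contra hc
    have hm2 : m ≠ 1 := by
      intro h; rw [h] at hc; omega
    obtain ⟨m', hm'⟩ : ∃ m', m = m' + 1 := ⟨m - 1, by omega⟩
    have hwm'' : w * m' ^ 2 ≤ w * R ^ 2 :=
      Nat.mul_le_mul_left _ (Nat.pow_le_pow_left (by omega) 2)
    have hmX' : m * X = m' * X + X := by rw [hm']; ring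
    have a1 := seg_dens (T := T) (J := J) (m := m') (z := m * X - (w * m ^ 2 + 36 * (L + 1)))
      (t := L + 1) hT64 hw0 (by omega) (by omega) (by rw [← hX]; omega)
      (by rw [← hX, ← hm']; omega)
    have a2 : (DD T w J).filter (fun e => m * X - (w * m ^ 2 + 36 * (L + 1)) ≤ e ∧
        e ≤ m * X - (w * m ^ 2 + 36 * (L + 1)) + 36 * (L + 1)) ⊆ B := by
      intro e he
      obtain ⟨b1, b2, b3⟩ := mem_filter.1 he
      exact mem_filter.2 ⟨b1, by omega, by omega⟩
    have := card_le_card a2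
    omega
  obtain ⟨n1, n2⟩ := near_sum B (m * X) (w * m ^ 2 + 36 * (L + 1)) (fun e he => by
    have a1 := min'_le _ _ he
    have a2 := le_max' _ _ he
    omega)
  rw [← hL, ← hsdef] at n1 n2
  have herr := err_lt hw hm1 hL2
  have herr2 : L * (w * m ^ 2 + 36 * (L + 1)) ≤ X := by
    have b1 : L * (w * m ^ 2 + 36 * (L + 1)) ≤ R * (w * R ^ 2 + 36 * R) :=
      Nat.mul_le_mul hLR.le (by omega)
    have b2 : R * (w * R ^ 2 + 36 * R) = w * R ^ 3 + 36 * R ^ 2 := by ring
    omega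
  have hM : L * m ≤ R := by
    have : L * m * X < (R + 1) * X := by
      rw [mul_assoc, add_mul]; omega
    have := Nat.lt_of_mul_lt_mul_right this
    omega
  have hM2 : w * (L * m) ^ 2 ≤ w * R ^ 2 := Nat.mul_le_mul_left _ (Nat.pow_le_pow_left hM 2)
  have h2X : 2 * X ≤ L * X := Nat.mul_le_mul_right _ hL2
  rcases mem_DD.1 hs with h | ⟨_, h, _⟩
  · omega
  · refine not_good (M := L * m) (Nat.mul_pos (by omega) hm1) (by omega) ?_ ?_ h
    · rw [mul_assoc, ← hX]; omega
    · rw [mul_assoc, ← hX]; omega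

lemma count_seg {k w J : ℕ} (hw : 0 < w) (hk : w * (2 ^ J) ^ 2 ≤ k) (q : ℕ) (hq : q + 1 ≤ 2 ^ J) :
    q * (16 * k) ≤ ((DD (72 * k) w J).filter (fun e => e < (q + 1) * (1152 * k))).card := by
  induction q with
  | zero => simp
  | succ q ih =>
    have ih' := ih (by omega)
    have hk0 : 0 < k := lt_of_lt_of_le (by positivity) hk
    have a1 : w * (q + 1) ^ 2 ≤ w * (2 ^ J) ^ 2 :=
      Nat.mul_le_mul_left _ (Nat.pow_le_pow_left (by omega) 2)
    have a2 : w * (q + 1 + 1) ^ 2 ≤ w * (2 ^ J) ^ 2 :=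
      Nat.mul_le_mul_left _ (Nat.pow_le_pow_left hq 2)
    have a0 : 0 < w * (q + 1 + 1) ^ 2 := by positivity
    have e1 : 16 * (72 * k) = 1152 * k := by ring
    have e2 : (q + 1 + 1) * (1152 * k) = (q + 1) * (1152 * k) + 1152 * k := by ring
    have a3 := seg_dens (T := 72 * k) (w := w) (J := J) (m := q + 1)
      (z := (q + 1) * (1152 * k) + w * (q + 1) ^ 2) (t := 16 * k) (by omega) hw (by omega)
      (by omega) (by rw [e1]) (by rw [e1, e2]; omega)
    set A1 := (DD (72 * k) w J).filter (fun e => e < (q + 1) * (1152 * k))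
    set A2 := (DD (72 * k) w J).filter (fun e => (q + 1) * (1152 * k) + w * (q + 1) ^ 2 ≤ e ∧
      e ≤ (q + 1) * (1152 * k) + w * (q + 1) ^ 2 + 36 * (16 * k))
    have hd : Disjoint A1 A2 := by
      rw [disjoint_left]
      intro e h1 h2
      have := (mem_filter.1 h1).2
      have := (mem_filter.1 h2).2.1
      omega
    have hsub : A1 ∪ A2 ⊆
        (DD (72 * k) w J).filter (fun e => e < (q + 1 + 1) * (1152 * k)) := by
      intro e he
      rcases mem_union.1 he with h | h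
      · obtain ⟨b1, b2⟩ := mem_filter.1 h
        exact mem_filter.2 ⟨b1, by omega⟩
      · obtain ⟨b1, b2, b3⟩ := mem_filter.1 h
        exact mem_filter.2 ⟨b1, by omega⟩
    have := card_le_card hsub
    rw [card_union_of_disjoint hd] at this
    rw [add_mul]
    omega

lemma count_ratio {k w J : ℕ} (hw : 0 < w) (hk : w * (2 ^ J) ^ 2 ≤ k) (n : ℕ) (h1 : 9 * k ≤ n)
    (h2 : 2 * n ≤ 2 ^ J * (9 * k)) :
    n < ((DD (72 * k) w J).filter (fun e => e < 256 * n)).card := by
  have hk0 : 0 < k := lt_of_lt_of_le (by positivity) hk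
  have hN : 0 < 9 * k := by omega
  obtain ⟨q, hq⟩ : ∃ q, 2 * n / (9 * k) = q + 2 := by
    have : 2 ≤ 2 * n / (9 * k) := by rw [Nat.le_div_iff_mul_le hN]; omega
    exact ⟨2 * n / (9 * k) - 2, by omega⟩
  have a1 : (q + 2) * (9 * k) ≤ 2 * n := by rw [← hq]; exact Nat.div_mul_le_self _ _
  have a2 : 2 * n < (q + 3) * (9 * k) := by
    rw [← Nat.div_lt_iff_lt_mul hN]; omega
  have a3 : q + 1 + 1 ≤ 2 ^ J := Nat.le_of_mul_le_mul_right (a1.trans h2) hN
  have a4 := count_seg hw hk (q + 1) a3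
  have a5 : (DD (72 * k) w J).filter (fun e => e < (q + 1 + 1) * (1152 * k)) ⊆
      (DD (72 * k) w J).filter (fun e => e < 256 * n) := by
    intro e he
    obtain ⟨b1, b2⟩ := mem_filter.1 he
    exact mem_filter.2 ⟨b1, by nlinarith⟩
  have := card_le_card a5
  have : 0 ≤ q * k := Nat.zero_le _
  nlinarith

end Pool.Agent.MP_d19b84_nt.LR
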