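import Mathlib
import Pool.Agent.MP_d19b84_nt.LR.Robust

set_option autoImplicit false

namespace Pool.Agent.MP_d19b84_nt.LR

open Finset

lemma dirichlet (P : Finset ℕ) (θ : ℕ → ℝ) (Q : ℕ) (hQ : 0 < Q) :
    ∃ d : ℕ, 1 ≤ d ∧ d ≤ Q ^ P.card ∧ ∀ p ∈ P, ∃ z : ℤ, |(d : ℝ) * θ p - z| ≤ 1 / Q := by
  classical
  have hQr : (0 : ℝ) < Q := by exact_mod_cast hQ
  let f : ℕ → (P → ℕ) := fun i p => ⌊Int.fract ((i : ℝ) * θ p) * Q⌋₊
  have hmaps : Set.MapsTo f (range (Q ^ P.card + 1) : Finset ℕ)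
      (Fintype.piFinset (fun _ : P => range Q) : Finset (P → ℕ)) := by
    intro i _
    simp only [mem_coe, Fintype.mem_piFinset, mem_range]
    intro p
    have h0 := Int.fract_nonneg ((i : ℝ) * θ p)
    have h1 := Int.fract_lt_one ((i : ℝ) * θ p)
    rw [Nat.floor_lt (by positivity)]
    nlinarith
  have hcard : (Fintype.piFinset (fun _ : P => range Q)).card < (range (Q ^ P.card + 1)).card := by
    simp [Fintype.card_piFinset]
  have key : ∀ i i' : ℕ, i < i' → i' < Q ^ P.card + 1 → f i = f i' →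
      ∃ d : ℕ, 1 ≤ d ∧ d ≤ Q ^ P.card ∧ ∀ p ∈ P, ∃ z : ℤ, |(d : ℝ) * θ p - z| ≤ 1 / Q := by
    intro i i' h1 h2 h3
    refine ⟨i' - i, by omega, by omega, fun p hp => ⟨⌊(i' : ℝ) * θ p⌋ - ⌊(i : ℝ) * θ p⌋, ?_⟩⟩
    have h4 : ⌊Int.fract ((i : ℝ) * θ p) * Q⌋₊ = ⌊Int.fract ((i' : ℝ) * θ p) * Q⌋₊ :=
      congrFun h3 ⟨p, hp⟩
    have a0 := Int.fract_nonneg ((i : ℝ) * θ p)
    have b0 := Int.fract_nonneg ((i' : ℝ) * θ p)
    have a1 := Nat.floor_le (show 0 ≤ Int.fract ((i : ℝ) * θ p) * Q by positivity)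
    have a2 := Nat.lt_floor_add_one (Int.fract ((i : ℝ) * θ p) * Q)
    have b1 := Nat.floor_le (show 0 ≤ Int.fract ((i' : ℝ) * θ p) * Q by positivity)
    have b2 := Nat.lt_floor_add_one (Int.fract ((i' : ℝ) * θ p) * Q)
    rw [h4] at a1 a2
    have e : ((i' - i : ℕ) : ℝ) * θ p - ((⌊(i' : ℝ) * θ p⌋ - ⌊(i : ℝ) * θ p⌋ : ℤ) : ℝ) =
        Int.fract ((i' : ℝ) * θ p) - Int.fract ((i : ℝ) * θ p) := by
      rw [Nat.cast_sub h1.le]
      push_cast
      unfold Int.fract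
      ring
    rw [e, le_div_iff₀ hQr, ← abs_of_pos hQr, ← abs_mul, abs_le]
    constructor <;> nlinarith
  obtain ⟨i, hi, i', hi', hne, he⟩ := exists_ne_map_eq_of_card_lt_of_maps_to hcard hmaps
  rcases lt_or_gt_of_ne hne with h | h
  · exact key i i' h (mem_range.1 hi') he
  · exact key i' i h (mem_range.1 hi) he.symm

lemma extend {T ρ : ℝ} (hρ : 0 ≤ ρ) {R : ℕ}
    (h : ∀ p : ℕ, p.Prime → p ≤ R → ∃ z : ℤ, |T * Real.log p - z| ≤ ρ) :
    ∀ L : ℕ, 1 ≤ L → L ≤ R → ∃ z : ℤ, |T * Real.log L - z| ≤ ρ * L := by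
  intro L
  induction L using Nat.strong_induction_on with
  | _ L ih =>
    intro h1 h2
    rcases h1.eq_or_lt with rfl | h1
    · exact ⟨0, by simpa using hρ⟩
    obtain ⟨p, hp, m, rfl⟩ := Nat.exists_prime_and_dvd h1.ne'
    have hp2 := hp.two_le
    have hm : 1 ≤ m := by
      rcases Nat.eq_zero_or_pos m with rfl | hm
      · simp at h1
      · exact hm
    obtain ⟨z1, hz1⟩ := h p hp (by nlinarith)
    obtain ⟨z2, hz2⟩ := ih m (by nlinarith) hm (by nlinarith)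
    refine ⟨z1 + z2, ?_⟩
    have hp0 : (p : ℝ) ≠ 0 := by exact_mod_cast hp.ne_zero
    have hm0 : (m : ℝ) ≠ 0 := by exact_mod_cast (by omega : m ≠ 0)
    have h3 : (1 : ℝ) + m ≤ p * m := by exact_mod_cast (by nlinarith : 1 + m ≤ p * m)
    push_cast
    rw [Real.log_mul hp0 hm0]
    calc |T * (Real.log p + Real.log m) - (z1 + z2)|
        = |(T * Real.log p - z1) + (T * Real.log m - z2)| := by congr 1; ring
      _ ≤ ρ + ρ * m := (abs_add_le _ _).trans (add_le_add hz1 hz2)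
      _ ≤ ρ * (p * m) := by nlinarith

lemma pi_log (R : ℕ) (hR : 2 ≤ R) : ((Nat.primesLE R).card : ℝ) * Real.log R ≤ 5 * R := by
  have hR1 : (1 : ℝ) < R := by exact_mod_cast hR
  have h := Chebyshev.pi_le_log4_mul_div hR1
  rw [Nat.floor_natCast, ← Nat.primesLE_card_eq_primeCounting, Real.log_sqrt (by linarith)] at h
  have hl : 0 < Real.log R := Real.log_pos hR1
  have h4 : Real.log 4 ≤ 3 / 2 := by
    rw [show (4 : ℝ) = 2 ^ 2 by norm_num, Real.log_pow]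
    have := Real.log_two_lt_d9
    push_cast
    linarith
  have hs : 0 < √(R : ℝ) := Real.sqrt_pos.2 (by linarith)
  have h5 : Real.log R ≤ 2 * √(R : ℝ) := by
    have := Real.log_le_sub_one_of_pos hs
    rw [Real.log_sqrt (by linarith)] at this
    linarith
  have h6 : √(R : ℝ) * √(R : ℝ) = R := Real.mul_self_sqrt (by linarith)
  have h7 : (Real.log 4 * R / (Real.log R / 2) + √(R : ℝ)) * Real.log R =
      2 * Real.log 4 * R + √(R : ℝ) * Real.log R := by field_simp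
  have h8 := mul_le_mul_of_nonneg_right h hl.le
  rw [h7] at h8
  nlinarith

lemma stage (S : ℕ) : ∃ (D : Finset ℕ) (N : ℕ), S ≤ N ∧ D.Nonempty ∧ (∀ e ∈ D, S < e) ∧
    (∀ u v t : ℕ, t ≤ S → (t = 0 ∨ u = 0) →
      ∑ e ∈ D.filter (fun e => u ≤ e ∧ e ≤ v), e + t ∈ D →
      ∑ e ∈ D.filter (fun e => u ≤ e ∧ e ≤ v), e + t ≤ v) ∧
    ∀ n : ℕ, N ≤ n → (n : ℝ) ≤ 1 / 38 * N * Real.log N →
      n < (D.filter (fun e => e < 256 * n)).card := by
  obtain ⟨w, hw⟩ : ∃ w, w = S + 109 := ⟨_, rfl⟩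
  obtain ⟨J, hJ⟩ : ∃ J, J = 9 * w := ⟨_, rfl⟩
  obtain ⟨R, hR⟩ : ∃ R, R = 2 ^ J := ⟨_, rfl⟩
  have hJR : J < R := by rw [hR]; exact Nat.lt_two_pow_self
  have hR0 : 0 < R := by omega
  obtain ⟨d, hd1, hd2, hd3⟩ := dirichlet (Nat.primesLE R)
    (fun p => ((72 * (w * R ^ 3) : ℕ) : ℝ) * Real.log p) (10 * R ^ 2) (by positivity)
  obtain ⟨k, hk⟩ : ∃ k, k = d * (w * R ^ 3) := ⟨_, rfl⟩
  have hk1 : w * R ^ 3 ≤ k := by rw [hk]; exact Nat.le_mul_of_pos_left _ hd1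
  have hk2 : w * R ^ 2 ≤ w * R ^ 3 :=
    Nat.mul_le_mul_left _ (Nat.pow_le_pow_right hR0 (by norm_num))
  have hk3 : w ≤ w * R ^ 3 := Nat.le_mul_of_pos_right _ (by positivity)
  have hRr : (0 : ℝ) < R := by exact_mod_cast hR0
  have hD : ∀ L : ℕ, 1 ≤ L → L ≤ 2 ^ J →
      ∃ z : ℤ, |((72 * k : ℕ) : ℝ) * Real.log L - z| ≤ 1 / (10 * 2 ^ J) := by
    intro L h1 h2
    rw [← hR] at h2
    obtain ⟨z, hz⟩ := extend (T := ((72 * k : ℕ) : ℝ)) (ρ := 1 / ((10 * R ^ 2 : ℕ) : ℝ)) (R := R)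
      (by positivity) (fun p hp hpR => by
        obtain ⟨z, hz⟩ := hd3 p (Nat.mem_primesLE.2 ⟨hpR, hp⟩)
        refine ⟨z, ?_⟩
        convert hz using 3
        rw [hk]
        push_cast
        ring) L h1 h2
    refine ⟨z, hz.trans ?_⟩
    have h3 : (L : ℝ) ≤ R := by exact_mod_cast h2
    have h4 : (2 : ℝ) ^ J = R := by rw [hR]; push_cast; rfl
    rw [h4]
    push_cast
    rw [div_mul_eq_mul_div, div_le_div_iff₀ (by positivity) (by positivity)]
    nlinarith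
  refine ⟨DD (72 * k) w J, 9 * k, by omega, ⟨_, mem_DD.2 (Or.inl rfl)⟩, ?_, ?_, ?_⟩
  · intro e he
    have := DD_ge he
    omega
  · intro u v t ht htu hs
    refine robust (S := S) (by omega) (by omega) ?_ hD u v t ht htu hs
    rw [← hR, mul_assoc]
    omega
  · intro n h1 h2
    refine count_ratio (by omega) (by rw [← hR]; omega) n h1 ?_
    rw [← hR]
    have hw0 : (0 : ℝ) < w := by exact_mod_cast (by omega : 0 < w)
    have hd0 : (0 : ℝ) < d := by exact_mod_cast hd1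
    have hR10 : (10 : ℝ) ≤ R := by exact_mod_cast (by omega : 10 ≤ R)
    have l1 : Real.log (9 * w) ≤ R := by
      have := Real.log_le_sub_one_of_pos (show (0 : ℝ) < 9 * w by positivity)
      have h3 : (9 : ℝ) * w ≤ R := by exact_mod_cast (by omega : 9 * w ≤ R)
      linarith
    have l2 : Real.log R ≤ R := by
      have := Real.log_le_sub_one_of_pos hRr
      linarith
    have l3 : Real.log d ≤ 15 * R := by
      have a1 : (d : ℝ) ≤ ((R : ℝ) ^ 3) ^ (Nat.primesLE R).card := by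
        have a2 : (d : ℝ) ≤ ((10 * R ^ 2 : ℕ) : ℝ) ^ (Nat.primesLE R).card := by
          exact_mod_cast hd2
        refine a2.trans (pow_le_pow_left₀ (by positivity) ?_ _)
        push_cast
        nlinarith [pow_pos hRr 2]
      have a3 := Real.log_le_log hd0 a1
      rw [Real.log_pow, Real.log_pow] at a3
      have a4 := pi_log R (by omega)
      push_cast at a3
      linarith
    have l4 : Real.log ((9 * k : ℕ) : ℝ) ≤ 19 * R := by
      have e : ((9 * k : ℕ) : ℝ) = d * ((9 * w) * (R : ℝ) ^ 3) := by rw [hk]; push_cast; ring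
      rw [e, Real.log_mul hd0.ne' (by positivity), Real.log_mul (by positivity) (by positivity),
        Real.log_pow]
      push_cast
      linarith
    have l5 : 1 / 38 * ((9 * k : ℕ) : ℝ) * Real.log ((9 * k : ℕ) : ℝ) ≤
        1 / 38 * ((9 * k : ℕ) : ℝ) * (19 * R) := mul_le_mul_of_nonneg_left l4 (by positivity)
    have : ((2 * n : ℕ) : ℝ) ≤ ((R * (9 * k) : ℕ) : ℝ) := by
      rw [Nat.cast_mul, Nat.cast_mul R]
      push_cast at h2 l5 ⊢
      linarith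
    exact_mod_cast this

end Pool.Agent.MP_d19b84_nt.LR
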