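import Mathlib
import Pool.Agent.MP_d19b84_nt.LR.Dir

set_option autoImplicit false

namespace Pool.Agent.MP_d19b84_nt.LR

open Finset

/-- the union of the first stages -/
def chain (D : ℕ → Finset ℕ) : ℕ → Finset ℕ
  | 0 => ∅
  | i + 1 => chain D i ∪ D (∑ e ∈ chain D i, e + i)

lemma chain_mono (D : ℕ → Finset ℕ) : Monotone (chain D) :=
  monotone_nat_of_le_succ (fun _ => subset_union_left)

lemma chain_ext {D : ℕ → Finset ℕ} (hD : ∀ S, ∀ e ∈ D S, S < e) {n n' e : ℕ} (h : n ≤ n')
    (he : e ∈ chain D n') : e ∈ chain D n ∨ n < e := by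
  induction n', h using Nat.le_induction with
  | base => exact Or.inl he
  | succ m hm ih =>
    rcases mem_union.1 he with h1 | h1
    · exact ih h1
    · have := hD _ _ h1
      omega

lemma chain_adm {D : ℕ → Finset ℕ} (hD : ∀ S, ∀ e ∈ D S, S < e)
    (hR : ∀ S u v t : ℕ, t ≤ S → (t = 0 ∨ u = 0) →
      ∑ e ∈ (D S).filter (fun e => u ≤ e ∧ e ≤ v), e + t ∈ D S →
      ∑ e ∈ (D S).filter (fun e => u ≤ e ∧ e ≤ v), e + t ≤ v) (i u v : ℕ)
    (h : ∑ e ∈ (chain D i).filter (fun e => u ≤ e ∧ e ≤ v), e ∈ chain D i) :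
    ∑ e ∈ (chain D i).filter (fun e => u ≤ e ∧ e ≤ v), e ≤ v := by
  induction i with
  | zero => simp [chain]
  | succ i ih =>
    simp only [chain] at h ⊢
    set B := chain D i with hB
    set S := ∑ e ∈ B, e + i with hS
    have hle : ∀ b ∈ B, b ≤ S := fun b hb =>
      (single_le_sum (f := fun e => e) (fun _ _ => Nat.zero_le _) hb).trans (Nat.le_add_right _ _)
    have hdis : Disjoint (B.filter (fun e => u ≤ e ∧ e ≤ v))
        ((D S).filter (fun e => u ≤ e ∧ e ≤ v)) := by
      rw [disjoint_left]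
      intro e h1 h2
      have := hle e (mem_filter.1 h1).1
      have := hD S e (mem_filter.1 h2).1
      omega
    rw [filter_union, sum_union hdis] at h ⊢
    have ht : ∑ e ∈ B.filter (fun e => u ≤ e ∧ e ≤ v), e ≤ S :=
      (sum_le_sum_of_subset (filter_subset _ _)).trans (Nat.le_add_right _ _)
    rcases mem_union.1 h with h1 | h1
    · have h2 := hle _ h1
      have h3 : (D S).filter (fun e => u ≤ e ∧ e ≤ v) = ∅ := by
        rw [eq_empty_iff_forall_notMem]
        intro e he
        have a1 := single_le_sum (f := fun e => e) (fun _ _ => Nat.zero_le _) he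
        have := hD S e (mem_filter.1 he).1
        omega
      rw [h3, sum_empty, add_zero] at h1 ⊢
      exact ih h1
    · rw [add_comm] at h1 ⊢
      rcases (B.filter (fun e => u ≤ e ∧ e ≤ v)).eq_empty_or_nonempty with h2 | ⟨b, hb⟩
      · exact hR S u v _ ht (Or.inl (by rw [h2, sum_empty])) h1
      · have h3 : (D S).filter (fun e => u ≤ e ∧ e ≤ v) =
            (D S).filter (fun e => 0 ≤ e ∧ e ≤ v) := by
          refine filter_congr (fun e he => ?_)
          have := hD S e he
          have := hle b (mem_filter.1 hb).1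
          have := (mem_filter.1 hb).2.1
          omega
        rw [h3] at h1 ⊢
        exact hR S 0 v _ ht (Or.inr rfl) h1

theorem main :
    ∃ a : ℕ → ℕ, StrictMono a ∧ 1 ≤ a 0 ∧
      (∀ i j k : ℕ, j ≤ k → k < i → a i ≠ ∑ m ∈ Finset.Icc j k, a m) ∧
      ∀ N₀ : ℕ, ∃ N : ℕ, N₀ ≤ N ∧ ∀ n : ℕ, N ≤ n → (n : ℝ) ≤ 1 / 38 * N * Real.log N →
        a n < 256 * n := by
  classical
  choose D N hN hne hD hR hC using stage
  let p : ℕ → Prop := fun e => ∃ i, e ∈ chain D i
  have hp : ∀ n e, e ≤ n → p e → e ∈ chain D n := by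
    rintro n e he ⟨n', hn'⟩
    rcases le_total n n' with h | h
    · rcases chain_ext hD h hn' with h1 | h1
      · exact h1
      · omega
    · exact chain_mono D h hn'
  have hinf : (Set.ofPred p).Infinite := by
    refine Set.infinite_of_forall_exists_gt (fun n => ?_)
    obtain ⟨e, he⟩ := hne (∑ e ∈ chain D n, e + n)
    refine ⟨e, ⟨n + 1, mem_union_right _ he⟩, ?_⟩
    have := hD _ _ he
    omega
  have hsm : StrictMono (Nat.nth p) := Nat.nth_strictMono hinf
  have hmem : ∀ i, p (Nat.nth p i) := Nat.nth_mem_of_infinite hinf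
  have hsurj : ∀ b, p b → ∃ i, Nat.nth p i = b := by
    intro b hb
    have : b ∈ Set.range (Nat.nth p) := by rw [Nat.range_nth_of_infinite hinf]; exact hb
    exact this
  refine ⟨Nat.nth p, hsm, ?_, ?_, ?_⟩
  · by_contra h
    have h0 : Nat.nth p 0 = 0 := by omega
    obtain ⟨n, hn⟩ := hmem 0
    rw [h0] at hn
    rcases chain_ext hD (Nat.zero_le n) hn with h1 | h1
    · simp [chain] at h1
    · omega
  · intro i j k _ hki e
    have hlt := hsm hki
    have hs : ∑ b ∈ (chain D (Nat.nth p i)).filter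
        (fun b => Nat.nth p j ≤ b ∧ b ≤ Nat.nth p k), b = ∑ m ∈ Icc j k, Nat.nth p m := by
      rw [← sum_image (s := Icc j k) (g := Nat.nth p) (f := fun b => b)
        (fun a _ b _ e => hsm.injective e)]
      refine sum_congr ?_ (fun _ _ => rfl)
      ext b
      rw [mem_filter, mem_image]
      constructor
      · rintro ⟨h1, h2, h3⟩
        obtain ⟨m, rfl⟩ := hsurj b ⟨_, h1⟩
        exact ⟨m, mem_Icc.2 ⟨hsm.le_iff_le.1 h2, hsm.le_iff_le.1 h3⟩, rfl⟩
      · rintro ⟨m, hm, rfl⟩
        have a1 := hsm.monotone (mem_Icc.1 hm).1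
        have a2 := hsm.monotone (mem_Icc.1 hm).2
        exact ⟨hp _ _ (by omega) (hmem m), a1, a2⟩
    have := chain_adm hD hR (Nat.nth p i) (Nat.nth p j) (Nat.nth p k)
      (by rw [hs, ← e]; exact hp _ _ le_rfl (hmem i))
    rw [hs, ← e] at this
    omega
  · intro N₀
    refine ⟨N (∑ e ∈ chain D N₀, e + N₀), (Nat.le_add_left _ _).trans (hN _), fun n h1 h2 => ?_⟩
    apply Nat.nth_lt_of_lt_count
    rw [Nat.count_eq_card_filter_range]
    refine (hC _ n h1 h2).trans_le (card_le_card (fun e he => ?_))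
    obtain ⟨b1, b2⟩ := mem_filter.1 he
    exact mem_filter.2 ⟨mem_range.2 b2, N₀ + 1, mem_union_right _ b1⟩

end Pool.Agent.MP_d19b84_nt.LR
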